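import Pool.Agent.H24.Leg6

set_option autoImplicit false

namespace Pool.Agent.Results.MP_29211c_nt.MinusThreeModFour

theorem result :
    ∀ (p : ℕ) [Fact (Nat.Prime p)], p % 4 = 3 → ∀ x y z w : ℂ,
      Matrix.det (Matrix.of (fun j k : Fin ((p - 1) / 2) =>
        x + (legendreSym p (((j : ℕ) : ℤ) - ((k : ℕ) : ℤ)) : ℂ)
          + (legendreSym p ((j : ℕ) : ℤ) : ℂ) * y + (legendreSym p ((k : ℕ) : ℤ) : ℂ) * z
          + (legendreSym p (((j : ℕ) : ℤ) * ((k : ℕ) : ℤ)) : ℂ) * w)) = x := by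
  intro p hp h3 x y z w
  obtain ⟨m, rfl, hm⟩ : ∃ m, p = 2 * (m + 1) + 1 ∧ Even m :=
    ⟨(p - 3) / 2, by omega, ⟨(p - 3) / 4, by omega⟩⟩
  have e : (2 * (m + 1) + 1 - 1) / 2 = m + 1 := by omega
  refine Eq.trans ?_ (Pool.Agent.H24.Leg.four_full hm x y z w)
  rw [← Matrix.det_submatrix_equiv_self (finCongr e)]
  congr 1
  ext j k
  simp [Pool.Agent.H24.Leg.Tm, legendreSym.mul]

end Pool.Agent.Results.MP_29211c_nt.MinusThreeModFour
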